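import Pool.Agent.U951.TR.GapsA
import Pool.Agent.Q278.KT.Fin
import Pool.Agent.U951.TR.Sch

/-!
# Schinzel's conjecture for all real numbers in long intervals around `α g ^ D`, `g = s(n)`, `n - φ(n)`, `α' n + β' f(n)`

Let `s(n)` be the sum of the proper divisors of `n`. Let `α > 0`, `D ≥ 1`, `1 / 2 ≤ w ≤ 0.694`, `D (1 - w) ≤ 1` and `e
= 1 - D (0.694 - w)`. For a set of `n` of lower density at least `1 - e = D (0.694 - w)` the following holds for `x =
α s(n) ^ D`, and the same for `x = α (n - φ(n)) ^ D`: every real `y` with `|y - x| ≤ x ^ w` and `|y + √y - x| ≤ x ^ w`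
has a prime `p` with `y < p < y + √y` (the property of Schinzel's conjecture), and there are at least `c h / log y`
primes strictly between `y` and `y + h` for all real `h ≥ y ^ (1 / 2 - δ)` with `|y + h - x| ≤ x ^ w`. For example
this is true near `s(n) ^ 2`, with windows of length `√x`, for a set of `n` of lower density at least `0.388`. More
precisely it holds for almost all `n` with a divisor `≥ n ^ e` which is a prime or the product of two different
primes, and for the values `g = α' n + β' f(n)` of multiplicative functions with `f p = p + c` at the primes,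
uniformly in `|α'|, |β'| ≤ N ^ δ'` and with a power saving in the number of the exceptional `n`.

The values `s(n)`, `n - φ(n)` are not multiplicative, and some of them are taken very often, so that bounds for the
number of exceptional primes up to `X` do not say anything about them.

Proof. The starting library (`Pool/Agent/Q278/KT`) bounds the number of the separated short intervals with few primes;
helper821 found representatives with a power saving (`S821/Poor`, `S821/PoorLaw`). Let `n = k v p` with large primes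
`p ≠ v`. Then `g = A v p + B (v + p) + B c`, `A = α' k + β' f(k)`, `B = β' c f(k)`, and so `(A v + B) (A p + B) = A g
+ B² - A B c`: for given `g`, `k`, `α'`, `β'` there are only `N^o(1)` possibilities for `p` and `v` (tool
`Pool.Agent.U365.POW` of helper365).
-/

set_option autoImplicit false

open Finset Filter

namespace Pool.Agent.Results.MP_b8a134_nt.AliquotValues

open Pool.Agent.U365.POW (Values Dens)

/-- Every real number `y` with `|y - x| ≤ x ^ w` and `|y + √y - x| ≤ x ^ w` has a prime `p` with `y < p < y + √y`, and for all real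
`y`, `h` with `h ≥ y ^ (1 / 2 - δ)` and `|y - x| ≤ x ^ w`, `|y + h - x| ≤ x ^ w` the number of the primes strictly between `y` and
`y + h` is at least `c h / log y`. -/
def Schinzel (c δ w x : ℝ) : Prop :=
  (∀ y : ℝ, |y - x| ≤ x ^ w → |y + Real.sqrt y - x| ≤ x ^ w → ∃ p : ℕ, p.Prime ∧ y < p ∧ (p : ℝ) < y + Real.sqrt y) ∧
  ∀ y h : ℝ, |y - x| ≤ x ^ w → |y + h - x| ≤ x ^ w → y ^ (1 / 2 - δ : ℝ) ≤ h →
    c * h / Real.log y ≤ ({p : ℕ | p.Prime ∧ y < p ∧ (p : ℝ) < y + h}.ncard : ℝ)

lemma large {c δ α D w : ℝ} (hc : 0 < c) (hδ : 0 < δ) (hα : 0 < α) (hD : 1 ≤ D) (hw : w < 1) :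
    ∃ J : ℕ, ∀ v : ℕ, J ≤ v → Pool.Agent.S821.Poor.Dense c (1 - 1 / 2 - δ) w (α * (v : ℝ) ^ D) →
      Schinzel (c / 4) (min δ (1 / 4) / 2) w (α * (v : ℝ) ^ D) := by
  obtain ⟨x₀, hx₀⟩ := Pool.Agent.U951.TR.Sch.real_of (δ := min δ (1 / 4)) hc (by positivity) (min_le_right _ _) hw
  have t1 : Tendsto (fun v : ℕ => α * (v : ℝ) ^ D) atTop atTop :=
    Tendsto.const_mul_atTop hα ((tendsto_rpow_atTop (by linarith)).comp tendsto_natCast_atTop_atTop)
  obtain ⟨J, hJ⟩ := eventually_atTop.1 (t1.eventually_ge_atTop x₀)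
  exact ⟨J, fun v hv h => hx₀ _ (hJ v hv) (h.mono le_rfl (by linarith [min_le_left δ (1 / 4)]))⟩

/-- **Theorem.** Let `α > 0`, `D ≥ 1`, `1 / 2 ≤ w ≤ 0.694`, `D (1 - w) ≤ 1`. The property `Schinzel c δ w x` of `x = α g ^
D` holds for the values `g` of functions similar to the aliquot sum (`Values e`, `e = 1 - D (0.694 - w)`: for `s(n)`,
for `n - φ(n)` and for all `α' n + β' f(n)`, for almost all the `n` with a divisor `≥ n ^ e` which is a prime or the
product of two different primes), and for both `g = s(n)` and `g = n - φ(n)` for a set of `n` of lower density at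
least `D (0.694 - w)`. -/
theorem result :
    ∃ c δ : ℝ, 0 < c ∧ 0 < δ ∧ ∀ α D w : ℝ, 0 < α → 1 ≤ D → 1 / 2 ≤ w → w ≤ 0.694 → D * (1 - w) ≤ 1 →
      Values (1 - D * (0.694 - w)) (fun v => Schinzel c δ w (α * (v : ℝ) ^ D)) ∧
        Dens (D * (0.694 - w)) (fun v => Schinzel c δ w (α * (v : ℝ) ^ D)) := by
  obtain ⟨c, δ, hc, hδ, H⟩ := Pool.Agent.U951.TR.Gaps.tools Pool.Agent.Q278.KT.mainp_half (by norm_num) (by norm_num)
    (by norm_num) (by norm_num)
  refine ⟨c / 4, min δ (1 / 4) / 2, by positivity, by positivity, fun α D w hα hD hw hw2 hDw => ?_⟩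
  have hw1 : w < 1 := by linarith
  obtain ⟨J, hJ⟩ := large hc hδ hα hD hw1
  have h := (H α D w hα hD (by norm_num; linarith) (by norm_num; linarith) hDw
    (fun v => Schinzel (c / 4) (min δ (1 / 4) / 2) w (α * (v : ℝ) ^ D)) J (fun v hv h => hJ v hv h.1)
    (1 - D * (0.694 - w)) (by rw [show (0.694 : ℝ) = 1 - 0.306 by norm_num]; ring)).1
  rwa [sub_sub_cancel] at h

end Pool.Agent.Results.MP_b8a134_nt.AliquotValues
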