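import Pool.Agent.U513.AP.Primes

/-!
# Schinzel's primes between `x` and `x + √x` around the numerators and denominators of Diophantine approximations

Let `α ∈ ℝ ^ d` and consider all its approximations `(k, u_1, …, u_d)` with `|k α_i - γ_i - u_i| ≤ k ^ (-τ)`; for `d = 1`, `γ = 0`,
`τ = 1` these contain the denominators and numerators of all the convergents of the continued fraction of `α`, for `τ = 1 / d` all
the best simultaneous approximations. We show that for all `α` outside of a set of Hausdorff dimension at most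
`(d + 0.306 + w - δ) / (1 + τ)`, `w ≥ 1/2`, there is a prime between `x` and `x + √x`, and at least `c H / log x` primes between `x` and
`x + H` for all `H` with `x ^ (1/2 - δ) ≤ H ≤ √x`, for ALL the real numbers `x ≥ 1` at a distance of at most `k ^ w` from
`a k + b_1 u_1 + ⋯ + b_d u_d`, for every integral linear form `(a, b) ≠ 0` and all these approximations with large `k`. For `d = 1`,
`τ = 1`, `w = 1/2` the dimension is at most `0.903`. The theorem is more general: linear forms are replaced by all the integral polynomials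
`P(k, u)` of degree at most `D` with small level sets and `w ≥ D / 2`, with the dimension `(d + 1 - l + 0.306 D + w - δ) / (1 + τ)`, for
example `k ^ 2 + u_1 ^ 2 + Q(u_2, …)` with `l = D = 2`.

Proof. The starting library bounds the number of separated short intervals with few primes (`Pool/Agent/Q278/KT`), in the form of
helper766 (`U766/OP/Core`) and helper821 (`S821/Poor`, representatives with a power saving). The integral vectors `(k, u)` with `k ≈ N`
and `P(k, u)` near the representatives are counted with the level sets of `P` (`U513/AP/Core`), and the sets of the `α` approximated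
by them, cubes of side `2 N ^ (- 1 - τ)`, are used as the covers in the definition of the Hausdorff measure. The numbers `k`, `u` have
the density zero for a given `α`, so that the bounds for the number of exceptional `n` alone do not say anything about them.
-/

set_option autoImplicit false

open Finset Filter MeasureTheory

namespace Pool.Agent.Results.MP_b8a134_nt.Approximations

/-- There is a prime between `x` and `x + √x`, and at least `c H / log x` primes between `x` and `x + H` for all the `H` with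
`x ^ (1/2 - δ) ≤ H ≤ √x`. -/
def Schinzel (c δ x : ℝ) : Prop := (∃ p : ℕ, p.Prime ∧ x < p ∧ (p : ℝ) < x + Real.sqrt x) ∧
  ∀ H : ℝ, x ^ (1 / 2 - δ) ≤ H → H ≤ Real.sqrt x →
    c * H / Real.log x ≤ ({p : ℕ | p.Prime ∧ x < p ∧ (p : ℝ) < x + H}.ncard : ℝ)

/-- The level sets of `P` in the boxes `|w_i| ≤ X` have at most `C X ^ (r - l + ε)` elements. -/
def SmallLevels {r : ℕ} (P : MvPolynomial (Fin r) ℤ) (l : ℝ) : Prop :=
  l ≤ r ∧ ∀ ε : ℝ, 0 < ε → ∃ C : ℝ, ∀ X : ℕ, 1 ≤ X → ∀ v : ℤ,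
    ({w : Fin r → ℤ | (∀ i, |w i| ≤ X) ∧ MvPolynomial.eval w P = v}.ncard : ℝ) ≤ C * (X : ℝ) ^ (r - l + ε)

/-- the polynomial `x_0 ^ 2 + x_1 ^ 2 + Q(x_2, x_3, …)` -/
noncomputable def squaresPlus {r : ℕ} (Q : MvPolynomial (Fin r) ℤ) : MvPolynomial (Fin (r + 2)) ℤ :=
  MvPolynomial.X 0 ^ 2 + MvPolynomial.X 1 ^ 2 + MvPolynomial.rename (fun i : Fin r => i.succ.succ) Q

/-- `(k, u)` is an approximation of `α` of exponent `τ` and shift `γ`: `|k α_i - γ_i - u_i| ≤ k ^ (-τ)` for all `i`. -/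
def Approx {d : ℕ} (τ : ℝ) (γ α : Fin d → ℝ) (k : ℕ) (u : Fin d → ℤ) : Prop :=
  ∀ i, |(k : ℝ) * α i - γ i - u i| ≤ (k : ℝ) ^ (-τ)

lemma schinzel_of {c δ : ℝ} (hc : 0 < c) (hδ : 0 < δ) (hδ1 : δ ≤ 0.005) : ∃ m1 : ℕ, ∀ m : ℕ, m1 ≤ m →
    Pool.Agent.U513.AP.Dense c (1 / 2 - δ) (1 / 2) m → ∀ x : ℝ, (m : ℝ) - 1 ≤ x → x ≤ m + 1 → Schinzel (c / 4) (δ / 2) x := by
  have t0 : Tendsto (fun n : ℕ => (n : ℝ)) atTop atTop := tendsto_natCast_atTop_atTop
  obtain ⟨m1, hm1⟩ := eventually_atTop.1 ((t0.eventually (Pool.Agent.U513.AP.ev 4 16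
    (by linarith : 1 / 2 - δ < 1 / 2 - δ / 2) (by linarith))).and (eventually_ge_atTop 16))
  refine ⟨m1, fun m hm hD x hx1 hx2 => ?_⟩
  obtain ⟨a1, a2⟩ := hm1 m hm
  have hm16 : (16 : ℝ) ≤ m := by exact_mod_cast a2
  have hm0 : (0 : ℝ) < m := by linarith
  have hx0 : 0 < x := by linarith
  have hlog : 0 < Real.log x := Real.log_pos (by linarith)
  have key : ∀ H : ℝ, x ^ (1 / 2 - δ / 2) ≤ H → H ≤ Real.sqrt x →
      c / 4 * H / Real.log x ≤ ({p : ℕ | p.Prime ∧ x < p ∧ (p : ℝ) < x + H}.ncard : ℝ) := by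
    intro H h1 h2
    have hH0 : 0 < H := lt_of_lt_of_le (Real.rpow_pos_of_pos hx0 _) h1
    -- `H` is large
    have b1 : (m : ℝ) ^ (1 / 2 - δ / 2) / 2 ≤ H := by
      refine le_trans ?_ h1
      have h3 : ((m : ℝ) / 2) ^ (1 / 2 - δ / 2) ≤ x ^ (1 / 2 - δ / 2) :=
        Real.rpow_le_rpow (by positivity) (by linarith) (by linarith)
      refine le_trans ?_ h3
      rw [Real.div_rpow hm0.le (by norm_num)]
      have h4 : (2 : ℝ) ^ (1 / 2 - δ / 2) ≤ 2 := by
        calc (2 : ℝ) ^ (1 / 2 - δ / 2) ≤ 2 ^ (1 : ℝ) := Real.rpow_le_rpow_of_exponent_le (by norm_num) (by linarith)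
          _ = 2 := Real.rpow_one 2
      exact div_le_div_of_nonneg_left (by positivity) (by positivity) h4
    have hmr : 0 < (m : ℝ) ^ (1 / 2 - δ) := Real.rpow_pos_of_pos hm0 _
    have b2 : 8 ≤ H := by linarith
    obtain ⟨h, hh⟩ : ∃ h : ℕ, h = ⌊H⌋₊ := ⟨_, rfl⟩
    have hh1 : (h : ℝ) ≤ H := by rw [hh]; exact Nat.floor_le hH0.le
    have hh2 : H < h + 1 := by rw [hh]; exact Nat.lt_floor_add_one H
    have hh8 : 8 ≤ h := by rw [hh]; exact Nat.le_floor (by exact_mod_cast b2)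
    obtain ⟨H', hH'⟩ : ∃ H' : ℕ, H' + 3 = h := ⟨h - 3, by omega⟩
    have hH'r : (H' : ℝ) + 3 = h := by exact_mod_cast hH'
    have b3 : ((m + 1 : ℕ) : ℝ) ^ (1 / 2 - δ) ≤ H' := by
      have h3 : ((m + 1 : ℕ) : ℝ) ^ (1 / 2 - δ) ≤ 2 * (m : ℝ) ^ (1 / 2 - δ) := by
        calc ((m + 1 : ℕ) : ℝ) ^ (1 / 2 - δ) ≤ (2 * m) ^ (1 / 2 - δ) := by
              refine Real.rpow_le_rpow (by positivity) ?_ (by linarith)
              push_cast
              linarith
          _ = 2 ^ (1 / 2 - δ) * (m : ℝ) ^ (1 / 2 - δ) := Real.mul_rpow (by norm_num) hm0.le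
          _ ≤ 2 ^ (1 : ℝ) * (m : ℝ) ^ (1 / 2 - δ) :=
              mul_le_mul_of_nonneg_right (Real.rpow_le_rpow_of_exponent_le (by norm_num) (by linarith)) hmr.le
          _ = _ := by rw [Real.rpow_one]
      linarith
    have hsq : Real.sqrt x ≤ Real.sqrt m + 1 := by
      rw [Real.sqrt_le_left (by positivity)]
      have := Real.sq_sqrt hm0.le
      nlinarith [Real.sqrt_nonneg (m : ℝ)]
    have hmh : (m : ℝ) ^ (1 / 2 : ℝ) = Real.sqrt m := (Real.sqrt_eq_rpow _).symm
    have hs1 : 4 ≤ Real.sqrt m := by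
      rw [Real.le_sqrt (by norm_num) hm0.le]
      linarith
    have b4 := hD (m + 1) H' (by
      rw [hmh]
      push_cast
      rw [add_sub_cancel_left, abs_one]
      linarith) (by
      rw [hmh]
      push_cast
      have : (m : ℝ) + 1 + H' - m = H' + 1 := by ring
      rw [this, abs_of_nonneg (by positivity)]
      linarith) b3
    have hlm : 0 < Real.log ((m + 1 : ℕ) : ℝ) := Real.log_pos (by push_cast; linarith)
    have hl2 : Real.log ((m + 1 : ℕ) : ℝ) ≤ 2 * Real.log x := by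
      rw [show (2 : ℝ) * Real.log x = Real.log (x ^ 2) by rw [Real.log_pow]; norm_num]
      apply Real.log_le_log (by positivity)
      push_cast
      nlinarith
    have b5 : c / 4 * H / Real.log x ≤ c * H' / Real.log ((m + 1 : ℕ) : ℝ) := by
      rw [div_le_div_iff₀ hlog hlm]
      have h5 : H ≤ 2 * H' := by linarith
      calc c / 4 * H * Real.log ((m + 1 : ℕ) : ℝ) ≤ c / 4 * (2 * H') * (2 * Real.log x) := by gcongr
        _ = c * H' * Real.log x := by ring
    refine (b5.trans b4).trans ?_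
    rw [← Set.ncard_coe_finset]
    have hfin : {p : ℕ | p.Prime ∧ x < p ∧ (p : ℝ) < x + H}.Finite := by
      refine (Set.finite_Iic ⌊x + H⌋₊).subset fun p hp => ?_
      exact Nat.le_floor hp.2.2.le
    refine Nat.cast_le.2 (Set.ncard_le_ncard ?_ hfin)
    intro p hp
    rw [mem_coe, mem_filter, mem_Ioc] at hp
    obtain ⟨⟨h7, h8⟩, h9⟩ := hp
    have h7' : (m : ℝ) + 1 < p := by exact_mod_cast h7
    have h8' : (p : ℝ) ≤ m + 1 + H' := by exact_mod_cast h8
    exact ⟨h9, by linarith, by linarith⟩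
  have h1 := key (Real.sqrt x) (by
    rw [Real.sqrt_eq_rpow]
    exact Real.rpow_le_rpow_of_exponent_le (by linarith) (by linarith)) le_rfl
  have hsx : 0 < Real.sqrt x := Real.sqrt_pos.2 hx0
  have h2 : (0 : ℝ) < ({p : ℕ | p.Prime ∧ x < p ∧ (p : ℝ) < x + Real.sqrt x}.ncard : ℝ) :=
    lt_of_lt_of_le (by positivity) h1
  refine ⟨?_, key⟩
  have h3 : ({p : ℕ | p.Prime ∧ x < p ∧ (p : ℝ) < x + Real.sqrt x}).ncard ≠ 0 := by
    intro h4
    rw [h4, Nat.cast_zero] at h2
    exact lt_irrefl _ h2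
  obtain ⟨p, hp⟩ := Set.nonempty_of_ncard_ne_zero h3
  exact ⟨p, hp⟩

/-- **Schinzel's primes around the approximations of almost all points.** There are `c > 0` and `δ > 0` such that for all `d ≥ 1`,
`D ≥ 1`, `τ ≥ 0`, `w ≥ D / 2`, `l` and all `γ ∈ ℝ ^ d` there is a set `E` of Hausdorff dimension at most
`(d + 1 - l + 0.306 D + w - δ) / (1 + τ)` (of Lebesgue measure zero if `0.306 D + w + 1 ≤ l + d τ`), such that for all `α ∉ E` and all
integral polynomials `P` in `d + 1` variables of degree at most `D` with `SmallLevels P l`, for all large `k` and all integral vectors `u`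
with `|k α_i - γ_i - u_i| ≤ k ^ (-τ)`, and ALL the real numbers `x ≥ 1` with `|x - P(k, u)| ≤ k ^ w`: there is a prime between `x` and
`x + √x`, and there are at least `c H / log x` primes between `x` and `x + H` if `x ^ (1/2 - δ) ≤ H ≤ √x`. All the nonconstant polynomials,
such as the linear forms, have `SmallLevels P 1`, and the polynomials `x_0 ^ 2 + x_1 ^ 2 + Q(x_2, …)` have `SmallLevels P 2`. -/
theorem result :
    (∃ c δ : ℝ, 0 < c ∧ 0 < δ ∧ ∀ (d D : ℕ) (τ w l : ℝ) (γ : Fin d → ℝ), 1 ≤ d → 1 ≤ D → 0 ≤ τ →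
      D / 2 ≤ w → ∃ E : Set (Fin d → ℝ), dimH E ≤ ENNReal.ofReal ((d + 1 - l + 0.306 * D + w - δ) / (1 + τ)) ∧
        (0.306 * D + w + 1 ≤ l + d * τ → volume E = 0) ∧
        ∀ α, α ∉ E → ∀ P : MvPolynomial (Fin (d + 1)) ℤ, P.totalDegree ≤ D → SmallLevels P l →
          ∀ᶠ k : ℕ in atTop, ∀ u : Fin d → ℤ, Approx τ γ α k u → ∀ x : ℝ, 1 ≤ x →
            |x - (MvPolynomial.eval (Fin.cons (k : ℤ) u : Fin (d + 1) → ℤ) P : ℤ)| ≤ (k : ℝ) ^ w →
              Schinzel c δ x) ∧
    (∀ (r : ℕ) (P : MvPolynomial (Fin r) ℤ), (∀ c : ℤ, P ≠ MvPolynomial.C c) → SmallLevels P 1) ∧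
    ∀ (r : ℕ) (Q : MvPolynomial (Fin r) ℤ), SmallLevels (squaresPlus Q) 2 := by
  refine ⟨?_, fun r P hP => Pool.Agent.U513.AP.lev_one P hP, fun r Q => Pool.Agent.U513.AP.lev_squares Q⟩
  obtain ⟨c, δ, hc, hδ, hδ1, h⟩ := Pool.Agent.U513.AP.scale_law Pool.Agent.Q278.KT.mainp_half (by norm_num)
    (by norm_num) (by norm_num) (by norm_num) (by norm_num)
  have e1 : (1 : ℝ) - 1 / 2 = 1 / 2 := by norm_num
  rw [e1] at h
  obtain ⟨m1, hm1⟩ := schinzel_of hc hδ hδ1
  refine ⟨c / 4, δ / 2, by positivity, by positivity, fun d D τ w l γ hd hD hτ hw => ?_⟩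
  obtain ⟨E, g1, g2, g3⟩ := h (fun m => ∀ x : ℝ, (m : ℝ) - 1 ≤ x → x ≤ m + 1 → Schinzel (c / 4) (δ / 2) x) m1
    (fun m hm hm2 => hm1 m hm hm2.1) d D τ w l γ hd hD hτ (by linarith)
  refine ⟨E, g1, g2, fun α hα P hP1 hP2 => ?_⟩
  filter_upwards [g3 α hα P hP1 hP2] with k hk u hu x hx hxP
  obtain ⟨v, hv⟩ : ∃ v : ℤ, v = MvPolynomial.eval (Fin.cons (k : ℤ) u : Fin (d + 1) → ℤ) P := ⟨_, rfl⟩
  have hk' := hk u hu
  rw [← hv] at hxP hk'
  rcases le_total (v : ℝ) x with hvx | hxv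
  · -- the integral part
    obtain ⟨m, hm⟩ : ∃ m : ℕ, m = ⌊x⌋₊ := ⟨_, rfl⟩
    have b1 : (m : ℝ) ≤ x := by rw [hm]; exact Nat.floor_le (by linarith)
    have b2 : x < m + 1 := by rw [hm]; exact Nat.lt_floor_add_one x
    have b3 : 1 ≤ m := by rw [hm]; exact Nat.le_floor (by exact_mod_cast hx)
    have b4 : v ≤ m := by
      have h5 : (v : ℝ) < ((m + 1 : ℤ) : ℝ) := by
        push_cast
        linarith
      have h6 : v < m + 1 := by exact_mod_cast h5
      omega
    have b4' : (v : ℝ) ≤ m := by exact_mod_cast b4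
    refine hk' m b3 ?_ x (by linarith) b2.le
    refine le_trans ?_ hxP
    rw [abs_of_nonneg (by linarith), abs_of_nonneg (by linarith)]
    linarith
  · obtain ⟨m, hm⟩ : ∃ m : ℕ, m = ⌈x⌉₊ := ⟨_, rfl⟩
    have b1 : x ≤ m := by rw [hm]; exact Nat.le_ceil x
    have b2 : (m : ℝ) < x + 1 := by rw [hm]; exact Nat.ceil_lt_add_one (by linarith)
    have b3 : 1 ≤ m := by
      have : (1 : ℝ) ≤ m := by linarith
      exact_mod_cast this
    have b4 : (m : ℤ) ≤ v := by
      have h5 : (m : ℝ) < ((v + 1 : ℤ) : ℝ) := by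
        push_cast
        linarith
      have h6 : (m : ℤ) < v + 1 := by exact_mod_cast h5
      omega
    have b4' : (m : ℝ) ≤ v := by exact_mod_cast b4
    refine hk' m b3 ?_ x (by linarith) (by linarith)
    refine le_trans ?_ hxP
    rw [abs_of_nonpos (by linarith), abs_of_nonpos (by linarith)]
    linarith

end Pool.Agent.Results.MP_b8a134_nt.Approximations
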