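import Mathlib
import Pool.Agent.U766.OP.Exa
import Pool.Agent.Q278.KT.Fin

/-!
# MP_b8a134_nt (Schinzel: a prime in `(x, x + √x)`): the exceptional points of expanding families, in the sense of
Hausdorff dimension

The problem asks for a prime in `(x, x + √x)` for every real `x ≥ 117`.  We show, for `x = F n ξ` in an expanding
family of functions of a real parameter `ξ` (for example the multiples `ξ · w n` of a given sequence, or the powers
`ξ ^ w n`), that the set of the parameters `ξ`, for which infinitely many of the points `x = F n ξ` are not regular, has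
small Hausdorff dimension.  Here `x` is regular if EVERY interval of length `H ≥ x ^ (1 - lam - δ)` at a distance of at most
`x ^ (1 - lam + δ)` from `x` contains at least `c H / log x` primes.  For `lam = 1/2` this concerns, in particular, the
interval `(x, x + √x)`, and even the interval `(x, x + x ^ (1/2 - δ))`; the exceptional set for the multiples `ξ · w n` of a
geometric progression and for the powers `ξ ^ n` has dimension `< 0.612`.  For `lam = 13/16`, that is for all the intervals of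
length `x ^ (3/16 - δ)`, the dimension is still `< 1`, and for `lam = 0.43` it is `< 0.105`.

Method: a maximal separated set of the starting points of intervals with few primes is a discrete set of real numbers with
counting function `O(x ^ (e - δ))` by the counting theorems of the starting library (`Pool.Agent.Q278.KT.mainp_half`,
`mainp_043`, `mainp_1316`: Heath-Brown's identity and large values of Dirichlet polynomials); its neighbourhoods pulled back
by the functions of the family are used as the covers in the definition of the Hausdorff measure.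
-/

set_option autoImplicit false

namespace Pool.Agent.Results.MP_b8a134_nt.MetricSchinzel

open Filter Topology

/-- the number of the primes in `(a, a + H]` (`a`, `H` real) -/
noncomputable def primesCount (a H : ℝ) : ℕ := {p : ℕ | p.Prime ∧ a < p ∧ (p : ℝ) ≤ a + H}.ncard

/-- Every interval `(a, a + H]` of length `H ≥ x ^ (1 - lam - δ)` at a distance of at most `x ^ (1 - lam + δ)` from `x`
contains at least `c H / log x` primes. -/
def Regular (c δ lam x : ℝ) : Prop :=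
  ∀ a H : ℝ, x - x ^ (1 - lam + δ) ≤ a → a + H ≤ x + x ^ (1 - lam + δ) → x ^ (1 - lam - δ) ≤ H →
    c * H / Real.log x ≤ (primesCount a H : ℝ)

/-- An expanding family of functions `F n : [u, v] → [1, ∞)`: for all `ε > 0` the difference quotients of `F n` are at least
`(F n x) ^ (1 - ε)` for all large `n`, and the sums `∑ (F n u) ^ (-t)` converge for all `t > τ`. -/
structure Expanding (u v τ : ℝ) (F : ℕ → ℝ → ℝ) : Prop where
  one_le : ∀ n, ∀ x ∈ Set.Icc u v, 1 ≤ F n x
  expand : ∀ ε : ℝ, 0 < ε → ∃ n0 : ℕ, ∀ n : ℕ, n0 ≤ n → ∀ x ∈ Set.Icc u v, ∀ y ∈ Set.Icc u v, x < y →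
    (F n x) ^ (1 - ε) * (y - x) ≤ F n y - F n x
  conv : ∀ t : ℝ, τ < t → Summable (fun n : ℕ => (F n u) ^ (-t))

/-- The pairs (exponent `lam` of the length, exponent `e` of the number of exceptional intervals). -/
def Pairs : Set (ℝ × ℝ) := {(1 / 2, 0.306), (0.43, 0.045), (13 / 16, 13 / 16)}

lemma pic_eq (a H : ℝ) : primesCount a H = Pool.Agent.Q240.KS.pic a H := by
  unfold primesCount Pool.Agent.Q240.KS.pic
  rw [← Set.ncard_coe_finset]
  congr 1
  ext p
  simp only [Set.mem_ofPred_eq, Finset.coe_filter, Finset.mem_Ioc]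
  constructor
  · rintro ⟨hp, h1, h2⟩
    have h3 : 0 ≤ a + H := le_trans (Nat.cast_nonneg p) h2
    refine ⟨⟨?_, Nat.le_floor h2⟩, hp⟩
    by_cases ha : 0 ≤ a
    · exact (Nat.floor_lt ha).2 h1
    · rw [not_le] at ha
      rw [Nat.floor_of_nonpos ha.le]
      exact hp.pos
  · rintro ⟨⟨h1, h2⟩, hp⟩
    refine ⟨hp, Nat.lt_of_floor_lt h1, ?_⟩
    have h3 : 0 < ⌊a + H⌋₊ := lt_of_le_of_lt (Nat.zero_le _) (lt_of_lt_of_le h1 h2)
    exact (Nat.le_floor_iff (by
      by_contra hcon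
      rw [not_le] at hcon
      rw [Nat.floor_of_nonpos hcon.le] at h3
      omega)).1 h2

lemma reg_iff (c δ lam x : ℝ) : Regular c δ lam x ↔ Pool.Agent.U766.OP.Regular c δ lam x := by
  unfold Regular Pool.Agent.U766.OP.Regular
  simp only [pic_eq]

/-- **Theorem.** (1) For each of the three pairs `(lam, e)` there are `c, δ > 0` such that the set of the parameters for which
infinitely many of the values are not regular has Hausdorff dimension at most `(e + τ) / lam - δ`, `0 ≤ τ ≤ 1`: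
(a) for all expanding families of functions `F n : [u, v] → [1, ∞)`;
(b) for the multiples `ξ * w n`, `ξ ≥ 1`, where `w n ≥ 1` and `∑ (w n) ^ (-t)` converges for all `t > τ`;
(c) for the powers `ξ ^ w n`, `ξ > 1`, where `w n ≥ 1` and `w n / log n → ∞`, with `τ = 0`.
(2) If `x` is large and `lam = 1 / 2` then a regular `x` has `≥ c √x / log x` primes in `(x, x + √x)`.
(3) There are `c, δ > 0` such that for all large `x` every interval in `[x, 4 x]` of length `H ≥ x ^ (0.615 - δ)` contains at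
least `c H / log x` primes. -/
theorem result :
    (∀ q ∈ Pairs, ∃ c δ : ℝ, 0 < c ∧ 0 < δ ∧
      (∀ (u v τ : ℝ) (F : ℕ → ℝ → ℝ), u < v → 0 ≤ τ → τ ≤ 1 → Expanding u v τ F →
        dimH {ξ : ℝ | ξ ∈ Set.Icc u v ∧ ¬ ∀ᶠ n : ℕ in atTop, Regular c δ q.1 (F n ξ)} ≤
          ENNReal.ofReal ((q.2 + τ) / q.1 - δ)) ∧
      (∀ (τ : ℝ) (w : ℕ → ℝ), 0 ≤ τ → τ ≤ 1 → (∀ n, 1 ≤ w n) →
        (∀ t : ℝ, τ < t → Summable (fun n => (w n) ^ (-t))) →
        dimH {ξ : ℝ | 1 ≤ ξ ∧ ¬ ∀ᶠ n : ℕ in atTop, Regular c δ q.1 (ξ * w n)} ≤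
          ENNReal.ofReal ((q.2 + τ) / q.1 - δ)) ∧
      (∀ w : ℕ → ℝ, (∀ n, 1 ≤ w n) → Tendsto (fun n : ℕ => w n / Real.log n) atTop atTop →
        dimH {ξ : ℝ | 1 < ξ ∧ ¬ ∀ᶠ n : ℕ in atTop, Regular c δ q.1 (ξ ^ w n)} ≤
          ENNReal.ofReal (q.2 / q.1 - δ))) ∧
    (∀ c δ : ℝ, 0 < c → 0 < δ → ∀ᶠ x : ℝ in atTop, Regular c δ (1 / 2) x →
      c / 2 * Real.sqrt x / Real.log x ≤ (({p : ℕ | p.Prime ∧ x < p ∧ (p : ℝ) < x + Real.sqrt x}.ncard : ℕ) : ℝ)) ∧
    ∃ c δ : ℝ, 0 < c ∧ 0 < δ ∧ ∀ᶠ x : ℝ in atTop, ∀ a H : ℝ, x ≤ a → a + H ≤ 4 * x →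
      x ^ (0.615 - δ) ≤ H → c * H / Real.log x ≤ (primesCount a H : ℝ) := by
  refine ⟨?_, ?_, ?_⟩
  · intro q hq
    obtain ⟨hM, hl0, hl1, he0, he1⟩ : Pool.Agent.Q240.KS.MAINP q.1 q.2 ∧ 0.2 ≤ q.1 ∧ q.1 ≤ 0.9 ∧ 0.01 ≤ q.2 ∧ q.2 ≤ 1 := by
      simp only [Pairs, Set.mem_insert_iff, Set.mem_singleton_iff] at hq
      rcases hq with rfl | rfl | rfl
      · exact ⟨Pool.Agent.Q278.KT.mainp_half, by norm_num, by norm_num, by norm_num, by norm_num⟩
      · exact ⟨Pool.Agent.Q278.KT.mainp_043, by norm_num, by norm_num, by norm_num, by norm_num⟩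
      · exact ⟨Pool.Agent.Q278.KT.mainp_1316, by norm_num, by norm_num, by norm_num, by norm_num⟩
    obtain ⟨c, δ, hc, hδ, hmain⟩ := Pool.Agent.U766.OP.family_dim hM hl0 hl1 he0 he1
    have hmain' : ∀ (u v τ : ℝ) (F : ℕ → ℝ → ℝ), u < v → 0 ≤ τ → τ ≤ 1 → Pool.Agent.U766.OP.Family u v τ F →
        dimH {ξ : ℝ | ξ ∈ Set.Icc u v ∧ ¬ ∀ᶠ n : ℕ in atTop, Regular c δ q.1 (F n ξ)} ≤
          ENNReal.ofReal ((q.2 + τ) / q.1 - δ) := by
      intro u v τ F huv h0 h1 hF
      simp only [reg_iff]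
      exact hmain u v τ F huv h0 h1 hF
    refine ⟨c, δ, hc, hδ, ?_, ?_, ?_⟩
    · intro u v τ F huv h0 h1 hF
      exact hmain' u v τ F huv h0 h1 ⟨hF.one_le, hF.expand, hF.conv⟩
    · intro τ w h0 h1 hw hs
      have hsub : {ξ : ℝ | 1 ≤ ξ ∧ ¬ ∀ᶠ n : ℕ in atTop, Regular c δ q.1 (ξ * w n)} ⊆
          ⋃ j : ℕ, {ξ : ℝ | ξ ∈ Set.Icc (1 : ℝ) (j + 2) ∧ ¬ ∀ᶠ n : ℕ in atTop, Regular c δ q.1 (ξ * w n)} := by
        rintro ξ ⟨h2, h3⟩
        obtain ⟨j, hj⟩ := exists_nat_ge ξ
        exact Set.mem_iUnion.2 ⟨j, ⟨h2, by linarith⟩, h3⟩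
      refine (dimH_mono hsub).trans ?_
      rw [dimH_iUnion]
      refine iSup_le fun j => ?_
      exact hmain' 1 (j + 2) τ (fun n x => x * w n) (by
        have : (0 : ℝ) ≤ j := Nat.cast_nonneg j
        linarith) h0 h1 (Pool.Agent.U766.OP.family_mul hw h0 hs le_rfl)
    · intro w hw hlim
      have hsub : {ξ : ℝ | 1 < ξ ∧ ¬ ∀ᶠ n : ℕ in atTop, Regular c δ q.1 (ξ ^ w n)} ⊆
          ⋃ j : ℕ, {ξ : ℝ | ξ ∈ Set.Icc (1 + 1 / ((j : ℝ) + 1)) (j + 3) ∧
            ¬ ∀ᶠ n : ℕ in atTop, Regular c δ q.1 (ξ ^ w n)} := by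
        rintro ξ ⟨h2, h3⟩
        obtain ⟨j1, hj1⟩ := exists_nat_ge ξ
        obtain ⟨j2, hj2⟩ := exists_nat_one_div_lt (show (0 : ℝ) < ξ - 1 by linarith)
        refine Set.mem_iUnion.2 ⟨max j1 j2, ⟨?_, ?_⟩, h3⟩
        · have h4 : (j2 : ℝ) ≤ (max j1 j2 : ℕ) := by exact_mod_cast le_max_right _ _
          have h5 : 1 / (((max j1 j2 : ℕ) : ℝ) + 1) ≤ 1 / ((j2 : ℝ) + 1) := by
            apply one_div_le_one_div_of_le (by positivity)
            linarith
          linarith
        · have h4 : (j1 : ℝ) ≤ (max j1 j2 : ℕ) := by exact_mod_cast le_max_left _ _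
          linarith
      refine (dimH_mono hsub).trans ?_
      rw [dimH_iUnion]
      refine iSup_le fun j => ?_
      have hj0 : (0 : ℝ) ≤ j := Nat.cast_nonneg j
      have hj1 : 1 / ((j : ℝ) + 1) ≤ 1 := by
        rw [div_le_one (by linarith)]
        linarith
      have hj2 : 0 < 1 / ((j : ℝ) + 1) := by positivity
      have h := hmain' (1 + 1 / ((j : ℝ) + 1)) (j + 3) 0 (fun n x => x ^ w n) (by linarith) le_rfl zero_le_one
        (Pool.Agent.U766.OP.family_pow hw hlim (by linarith))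
      rw [add_zero] at h
      exact h
  · intro c δ hc hδ
    have h1 : Tendsto (fun x : ℝ => x ^ (δ : ℝ)) atTop atTop := tendsto_rpow_atTop hδ
    filter_upwards [h1.eventually_ge_atTop 2, eventually_ge_atTop 16] with x hx hx16 hR
    have hx0 : 0 < x := by linarith
    have hsq : Real.sqrt x = x ^ (1 / 2 : ℝ) := Real.sqrt_eq_rpow x
    have hs0 : 0 < Real.sqrt x := Real.sqrt_pos.2 hx0
    have e1 : x ^ (1 - 1 / 2 - δ) ≤ Real.sqrt x / 2 := by
      rw [show (1 : ℝ) - 1 / 2 - δ = 1 / 2 - δ by ring, Real.rpow_sub hx0, ← hsq]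
      exact div_le_div_of_nonneg_left hs0.le (by norm_num) hx
    have e2 : Real.sqrt x ≤ x ^ (1 - 1 / 2 + δ) := by
      rw [hsq]
      exact Real.rpow_le_rpow_of_exponent_le (by linarith) (by linarith)
    have h2 := hR x (Real.sqrt x / 2) (by
      have : 0 < x ^ (1 - 1 / 2 + δ) := Real.rpow_pos_of_pos hx0 _
      linarith) (by linarith) e1
    have h3 : ((primesCount x (Real.sqrt x / 2) : ℕ) : ℝ) ≤
        (({p : ℕ | p.Prime ∧ x < p ∧ (p : ℝ) < x + Real.sqrt x}.ncard : ℕ) : ℝ) := by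
      norm_cast
      apply Set.ncard_le_ncard
      · rintro p ⟨g1, g2, g3⟩
        exact ⟨g1, g2, by linarith⟩
      · apply Set.Finite.subset (Set.finite_Iic ⌊x + Real.sqrt x⌋₊)
        rintro p ⟨g1, g2, g3⟩
        exact Nat.le_floor g3.le
    refine le_trans (le_of_eq ?_) (h2.trans h3)
    ring
  · obtain ⟨c, δ, hc, hδ, hδ1, hall⟩ := Pool.Agent.U766.OP.all_long Pool.Agent.Q278.KT.mainp_043
      (by norm_num) (by norm_num) (by norm_num) (by norm_num)
    refine ⟨c, δ, hc, hδ, ?_⟩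
    filter_upwards [hall] with x hx a H h1 h2 h3
    rw [pic_eq]
    exact hx a H h1 h2 (by
      rw [show (1 : ℝ) - 0.43 + 0.045 - δ = 0.615 - δ by norm_num]
      exact h3)

end Pool.Agent.Results.MP_b8a134_nt.MetricSchinzel
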