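import Pool.Agent.U832.RH.Use
import Pool.Agent.U832.RH.LiL

/-!
# Numbers with three prime factors in short intervals and the windows around them

All intervals `(Z, Z + Y]`, `Y ≥ X ^ θ`, `Z + Y ≤ X` (for instance `(x, x + √x)`) contain the right order of almost
primes (with at most three prime factors for `θ ≥ 0.37`) in every prescribed environment: the numbers without small
prime factors in windows around these almost primes are Poisson variables, up to constant factors.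
-/

set_option autoImplicit false

namespace Pool.Agent.Results.MP_b8a134_nt.P3InWindows

open Finset Filter Pool.Agent.U832.RG Pool.Agent.U832.RH

/-- The `n` without a prime factor `≤ y`. -/
def Rough (y : ℕ) : Set ℕ := {n | ∀ p : ℕ, p.Prime → p ≤ y → ¬ p ∣ n}

/-- The `n` with at most `R` prime factors, counted with multiplicity, all of them `≥ z`. -/
def AlmostPrime (R : ℕ) (z : ℝ) : Set ℕ :=
  {n | n.primeFactorsList.length ≤ R ∧ ∀ p : ℕ, p.Prime → p ∣ n → z ≤ p}

/-- The `n` without a prime factor `< z`. -/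
def Free (z : ℝ) : Set ℕ := {n | ∀ p : ℕ, p.Prime → (p : ℝ) < z → ¬ p ∣ n}

/-- The product of `1 - 1 / p` over the primes `p ≤ y`. -/
noncomputable def V (y : ℕ) : ℝ := ∏ p ∈ (Icc 1 y).filter Nat.Prime, (1 - 1 / (p : ℝ))

section aux

open Pool.Agent.H373R2.T7 Pool.Agent.W123.RP Pool.Agent.TH464.PW
open Pool.Agent.TH464.PO (Sf)
open Pool.Agent.W123.RU.Poly (Q)
open Pool.Agent.Y882.MG (LF LF_eval ro_lin)

lemma rough_iff (y n : ℕ) : n ∈ Rough y ↔ Sf (Q (sg LF)) y n := by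
  unfold Sf Rough
  simp only [sg_Q, LF_eval, mem_pz, Set.mem_ofPred_eq, Int.natCast_dvd_natCast]
  constructor
  · exact fun h p hp => h p hp.2 hp.1
  · exact fun h p hp hpy => h p ⟨hpy, hp⟩

lemma V_eq (y : ℕ) : Vq (Q (sg LF)) y = V y := by
  classical
  have hpz : pz y = (Icc 1 y).filter Nat.Prime := by
    ext p
    rw [mem_pz, mem_filter, mem_Icc]
    constructor
    · exact fun h => ⟨⟨h.2.one_lt.le, h.1⟩, h.2⟩
    · exact fun h => ⟨h.1.2, h.2⟩
  unfold Vq V
  rw [hpz]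
  apply Finset.prod_congr rfl
  intro p hp
  rw [nuB_sg, ro_lin p (mem_filter.1 hp).2.pos]
  push_cast
  rfl

end aux

/-- Let `0 < θ ≤ 1` and let `R` be an integer with `9 / 8 + 25 / (24 θ) < R + 1` (for instance `R = 3`, `θ ≥ 0.37`).
There are `c, C > 0` such that for all `J`, `L`, `x₀`, all `ε > 0`, all large `r` and all large `X`, with
`y = ⌊X ^ (1 / r)⌋`: for ALL intervals `(Z, Z + Y]` with `X ^ θ ≤ Y`, `Z + Y ≤ X`, all disjoint windows
`(d j, e j] ⊆ (0, T]`, `j < J`, `T V ≤ x₀`, all `s ≤ T` outside of them and all `l j ≤ L`, let `Π` be the product of the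
probabilities that a Poisson variable of mean `(e j - d j) V` has the value `l j`. Then
(1) the number of the `n` in `(Z, Z + Y]` for which `n + s` has at most `R` prime factors, all of them `≥ X ^ (θ / 5)`,
and for which exactly `l j` of the `m` in `(n + d j, n + e j]` have no prime factor `≤ y`, for all `j`, is at least
`(c Π - ε) Y / log X`;
(2) the number of the `n` with the same windows for which `n + s` has no prime factor `< X ^ (θ / 4)` is at most
`(C Π + ε) Y / log X`. -/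
theorem result (θ : ℝ) (hθ : 0 < θ) (hθ1 : θ ≤ 1) (R : ℕ) (hR : 9 / 8 + 25 / (24 * θ) < R + 1) :
    ∃ c C : ℝ, 0 < c ∧ 0 < C ∧ ∀ (J L : ℕ) (x₀ ε : ℝ), 0 < ε → ∃ r₀ : ℕ, ∀ r : ℕ, r₀ ≤ r → ∀ᶠ X : ℕ in atTop,
      ∀ y : ℕ, y = ⌊(X : ℝ) ^ (1 / (r : ℝ))⌋₊ →
      ∀ Z Y T : ℕ, Z + Y ≤ X → (X : ℝ) ^ θ ≤ Y → T * V y ≤ x₀ →
      ∀ (s : ℕ) (d e l : Fin J → ℕ), Windows T s d e → (∀ j, l j ≤ L) →
      (c * ∏ j, poisson (l j) ((e j - d j : ℕ) * V y) - ε) * (Y / Real.log X) ≤
        seen (AlmostPrime R ((X : ℝ) ^ (θ / 5))) (Rough y) s d e l Z Y ∧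
      (seen (Free ((X : ℝ) ^ (θ / 4))) (Rough y) s d e l Z Y : ℝ) ≤
        (C * ∏ j, poisson (l j) ((e j - d j : ℕ) * V y) + ε) * (Y / Real.log X) := by
  obtain ⟨w, hw1, hw2, c, C, hc, hC, H⟩ := lin_law θ hθ hθ1 R hR
  refine ⟨c, C, hc, hC, ?_⟩
  intro J L x₀ ε hε
  obtain ⟨r₀, H'⟩ := H J L x₀ ε hε
  refine ⟨r₀, fun r hr => ?_⟩
  filter_upwards [H' r hr, eventually_ge_atTop 1] with X hX hX1
  intro y hy Z Y T hZ hY hT s d e l hwin hk
  have hX1r : (1 : ℝ) ≤ X := by exact_mod_cast hX1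
  have h := hX y hy Z Y T hZ hY (by rw [V_eq]; exact hT) s d e l hwin hk
  rw [V_eq] at h
  obtain ⟨h1, h2⟩ := h
  refine ⟨h1.trans ?_, le_trans ?_ h2⟩
  · have h3 := cntAP_le Pool.Agent.Y882.MG.LF R ((X : ℝ) ^ w) y s d e l Z Y
      (AlmostPrime R ((X : ℝ) ^ (θ / 5))) (Rough y) (fun m => rough_iff y m) (fun m hm1 hm2 => by
        rw [Pool.Agent.Y882.MG.LF_eval, Int.natAbs_natCast] at hm1 hm2
        refine ⟨hm1, fun p hp hpd => ?_⟩
        refine le_trans ?_ (hm2 p hp hpd)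
        exact Real.rpow_le_rpow_of_exponent_le hX1r hw1)
    exact_mod_cast h3
  · have h3 := le_cntR Pool.Agent.Y882.MG.LF ((X : ℝ) ^ w) y s d e l Z Y
      (Free ((X : ℝ) ^ (θ / 4))) (Rough y) (fun m => rough_iff y m) (fun m hm p hp hpw => by
        rw [Pool.Agent.Y882.MG.LF_eval, Int.natCast_dvd_natCast]
        exact hm p hp (hpw.trans_le (Real.rpow_le_rpow_of_exponent_le hX1r hw2)))
    exact_mod_cast h3

end Pool.Agent.Results.MP_b8a134_nt.P3InWindows
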